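import Pool.Agent.KS6_21.P3.FSum

/-!
MP_b525bf_ag: resolution of singularities, in all dimensions and in all characteristics `p > 0`, of
projective varieties over a perfect field `k`, and of their open subsets, which are given by one
equation `F + f * z ^ d = 0` in independent variables, where `d` is not divisible by `p ^ 2` and
where `F` and `f` are expressions without common variables which are built in the following way
(`IsExpression`). One starts with arbitrary functions `f (x, y)` of two variables (or functions on
surfaces), with variables, and with the polynomials

  `w ^ p - w - (a 1 (x 1, y 1) + ... + a m (x m, y m))` and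
  `w ^ p - (a 1 (x 1, y 1) + ... + a m (x m, y m))`

with arbitrary functions `a i` of separate pairs of variables, and uses the operations
`F ^ e * f ^ e'` (`e` prime to `p`) and `F + f * z ^ d` (`p ^ 2 ∤ d`) for expressions `F` and `f`
without common variables, and new variables `z`. No condition of nondegeneracy is imposed on the
functions of two variables. An Artin-Schreier polynomial `w ^ p - w - ∑ i, a i` must occur (the other
case is treated in FrobeniusPencils and DiagonalHypersurfaces).

Examples (`a i`, `b i`, `c i`, `f j`, `g` are arbitrary functions of separate pairs of variables;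
they can also be constants, or functions on arbitrary smooth projective surfaces):

* The Artin-Schreier coverings
  `w ^ p - w = a 1 (x 1, y 1) + ... + a m (x m, y m) + f 1 * z 1 ^ d 1 + ... + f n * z n ^ d n`
  with `n ≥ 1` and with `p ^ 2 ∤ d j` (for `m = 0` the first sum is zero), where the `f j` are
  functions of other variables `(s j, t j)`, or products of such functions, or any expressions. They
  are known if all `d j` are prime to `p` and the `f j` are products of functions on surfaces. They
  are new if some `d j` is divisible by `p`, already in dimension four: for example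
  `w ^ p - w = f (s, t) * z ^ p + u ^ d`, for each polynomial `f`.

* Families of quadrics in characteristic `2`. Every nonsingular quadratic form over a field of
  characteristic `2` is an orthogonal sum of forms `c * (x ^ 2 + x * y + b * y ^ 2)`, and every
  quadratic form is an orthogonal sum of a nonsingular one and of a diagonal one. The theorem is
  about the quadric bundles with the equation
  `∑ i, c i * (x i ^ 2 + x i * y i + b i * y i ^ 2) + ∑ j, f j * z j ^ 2 = 0`
  (with smooth generic fibre if there is at most one `f j`), where the `b i`, `c i`, `f j` are
  functions of separate pairs of variables, and there are at least two summands. Indeed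
  `c * (x ^ 2 + x * y + b * y ^ 2) = c * y ^ 2 * (w ^ 2 + w + b)` with `w = x / y`. If the functions
  are polynomials, the equation defines a subvariety `Q` of the product of an affine space and of the
  projective space of the `x i`, `y i`, `z j`. The forms `y i ^ 2`, `z j ^ 2` and
  `x i ^ 2 + x i * y i + b i * y i ^ 2` have no common zeros on `Q`, and they are monomials in the
  functions in `P`, so that one can apply the theorem to the Veronese embedding of a suitable closure
  of `Q`. In particular, these are conic bundles `x ^ 2 + x * y + b * y ^ 2 + f * z ^ 2 = 0`. In
  characteristic `p` one has the same with `x ^ p - x * y ^ (p - 1) - b * y ^ p`, the norm of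
  `x - y * θ`, where `θ ^ p - θ = b`.

* The coverings `z ^ p - g (s, t) ^ (p - 1) * z + f = 0`, the form of the equations in the work of
  Cossart and Piltant on threefolds, where `f` is a sum of terms `f j * z j ^ d j` as above, and of a
  term `g (s, t) ^ p * (a 1 (x 1, y 1) + ... + a m (x m, y m))`: the first expression is
  `g ^ p * (w ^ p - w)` with `w = z / g`. Also `z ^ p - t ^ (p - 1) * z = F` for a variable `t` and
  any expression `F`: this is `w ^ p - w - F * (1 / t) ^ p = 0` with `w = z / t`.

* Cyclic coverings `v ^ n = ∏ i, (w i ^ p - w i - ∑ j, a i j (x i j, y i j)) ^ e i`, `p ^ 2 ∤ n`,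
  branched along several Artin-Schreier hypersurfaces, where some `e i` is prime to `p`, and coverings
  given by composed expressions, for example
  `v ^ n = w ^ p - w - a (x, y) + (g (s, t) + h (q, r) * u ^ p) * z ^ d`.

Here `X` is a projective variety with a finite morphism to a projective space whose homogeneous
coordinates are (values at the generic point) roots of monomials in the functions of the surfaces,
the variables `z` which have been added, and the intermediate expressions. The variables `w` are
integral over these functions: `w ^ p - w = F + ∑ i, a i`; if the variables of the surfaces are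
`x i`, `y i` then the affine hypersurfaces in the examples have projective closures `X` like this.

The proof: let `A` be the field of the functions `a i`, and let `a` be their sum. There are smooth
projective models `V` of `A` on which given functions are locally monomials, and on which `a` has
an Artin-Schreier normal form `a = b ^ p - b + x ^ n * h`, where the logarithmic differential of
`x ^ n * h`, divided by `x ^ n`, has no zeros on the poles (library). In the projective bundle over
`V` with the local coordinates `(w - b) / x ^ μ` and after a sequence of blowups the closure of the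
Artin-Schreier hypersurface `F = w ^ p - w - a = 0` is smooth and transversal to the boundary
(library, used there for the Artin-Schreier covering itself). The first new step (`apencil1`) is
that after adding this hypersurface to the boundary, and after further toroidal blowups, the function
`F` has a normal form of the other kind, `F = c ^ p + x ^ n' * h'`, for which the logarithmic
differential of `x ^ n' * h'`, divided by `x ^ n'`, has no zeros at all: at each point one has to
find a logarithmic tangent vector, in the direction of `w` or in a direction in which the form of
`a` does not vanish, and on the new hypersurface the exponents are such that the vector of its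
equation can be used. After this the expressions `F ^ e * f ^ e'` and `F + f * z ^ d` are constructed
by the methods of FrobeniusPencils and DiagonalHypersurfaces.

helper21 (the normal form on the Artin-Schreier hypersurface, the expressions); built on the library
of the starting files: helper558 and the helpers named there (models, Giraud's theorem, the
Artin-Schreier normal form, products, line bundles), helpers 188, 90, 971, 153, 177 (joint normal
forms, relative blowups), 214 (toroidal modifications), 498, 762, 98 (pairs with models, projective
varieties).
-/

set_option autoImplicit false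

open AlgebraicGeometry CategoryTheory Pool.Agent.W558 Pool.Agent.N98

namespace Pool.Agent.Results.MP_b525bf_ag.ArtinSchreierFormulas

section defs

variable {k K : Type} [Field k] [Field K] [Algebra k K]

/-- The subfields `A` and `C` of `K` are independent: the homomorphism `A ⊗ C → K` is injective. (If
`k` is algebraically closed and `A` and `C` are finitely generated this says that they are
algebraically independent from each other.) -/
def AreIndependent (A C : IntermediateField k K) : Prop :=
  Function.Injective (Algebra.TensorProduct.productMap A.val C.val)

/-- **Sums of functions of two variables.** `IsSum A P a` says that `a` is a sum of functions on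
independent surfaces, or a constant, that `A` is generated by the function fields of these surfaces,
and that `P` is the union of these function fields. For example, let `x i`, `y i` be independent
variables, and let `a i (x i, y i)` be any rational functions; then `a = ∑ i, a i (x i, y i)`,
`A = k (x 1, y 1, ..., x m, y m)` and `P = ⋃ i, k (x i, y i)` have this property. -/
inductive IsSum : IntermediateField k K → Set K → K → Prop
  /-- A constant. -/
  | constant (a : K) (ha : a ∈ (⊥ : IntermediateField k K)) :
      IsSum ⊥ ((⊥ : IntermediateField k K) : Set K) a
  /-- Any function `a` on a smooth projective surface with function field `E`. -/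
  | surface (E : IntermediateField k K) (h2 : Algebra.trdeg k E = 2) (hE : HasModel k E) (a : K)
      (ha : a ∈ E) : IsSum E (E : Set K) a
  /-- Sums. -/
  | add (A B : IntermediateField k K) (P Q : Set K) (a b : K) (hA : IsSum A P a)
      (hB : IsSum B Q b) (hAB : AreIndependent A B) : IsSum (A ⊔ B) (P ∪ Q) (a + b)

/-- **The expressions.** `IsExpression p s A P F` says that `F` is an expression in independent
variables, that `A` is the subfield of `K` generated by all these variables, and that `P` is the set
of the functions of `A` which occur in the construction: all functions of the surfaces which are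
used as variables, the other variables `z` and `y`, and the intermediate expressions (but not the
variables `w` of the polynomials `w ^ p - w - a` and `w ^ p - a`). The index `s` is `0` for constants
and functions on surfaces, which are only used as coefficients; otherwise it is `2` if an
Artin-Schreier polynomial occurs in the construction, and `1` if not. -/
inductive IsExpression (p : ℕ) : ℕ → IntermediateField k K → Set K → K → Prop
  /-- A constant `c ≠ 0`. -/
  | constant (c : K) (hc : c ∈ (⊥ : IntermediateField k K)) (hc0 : c ≠ 0) :
      IsExpression p 0 ⊥ ((⊥ : IntermediateField k K) : Set K) c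
  /-- Any function `f ≠ 0` on a smooth projective surface with function field `E`. -/
  | surface (E : IntermediateField k K) (h2 : Algebra.trdeg k E = 2) (hE : HasModel k E) (f : K)
      (hf : f ∈ E) (hf0 : f ≠ 0) : IsExpression p 0 E (E : Set K) f
  /-- Any function `f` on a smooth projective surface which is not a `p`-th power. -/
  | surface' (E : IntermediateField k K) (h2 : Algebra.trdeg k E = 2) (hE : HasModel k E) (f : K)
      (hf : f ∈ E) (hfp : ∀ b ∈ E, b ^ p ≠ f) : IsExpression p 1 E (E : Set K) f
  /-- A variable. -/
  | coordinate (y : K) (hy : Transcendental k y) :
      IsExpression p 1 (IntermediateField.adjoin k {y}) {y} y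
  /-- The polynomial `w ^ p - a`, where `a` is a sum of functions on independent surfaces, not a
  `p`-th power, and `w` is a new variable. -/
  | frobenius (A : IntermediateField k K) (P : Set K) (a : K) (h : IsSum A P a)
      (ha : ∀ b ∈ A, b ^ p ≠ a) (w : K) (hw : Transcendental A w) :
      IsExpression p 1 (A ⊔ IntermediateField.adjoin k {w}) (insert (w ^ p - a) P) (w ^ p - a)
  /-- The Artin-Schreier polynomial `w ^ p - w - a`, where `a` is a sum of functions on independent
  surfaces, and `w` is a new variable. -/
  | artinSchreier (A : IntermediateField k K) (P : Set K) (a : K) (h : IsSum A P a) (w : K)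
      (hw : Transcendental A w) :
      IsExpression p 2 (A ⊔ IntermediateField.adjoin k {w}) (insert (w ^ p - w - a) P)
        (w ^ p - w - a)
  /-- Products `F ^ e * f ^ e'` of powers of expressions `F` and `f` in independent variables, where
  `e` and `e'` are integers and `e` is prime to `p`. -/
  | mul (s s' : ℕ) (hs : s ≠ 0) (A C : IntermediateField k K) (P Q : Set K) (F f : K)
      (hF : IsExpression p s A P F) (hf : IsExpression p s' C Q f) (hAC : AreIndependent A C)
      (e e' : ℤ) (he : ¬ (p : ℤ) ∣ e) :
      IsExpression p (max s s') (A ⊔ C) (insert (F ^ e * f ^ e') (P ∪ Q)) (F ^ e * f ^ e')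
  /-- Sums `F + f * z ^ d`, where `F` and `f` are expressions in independent variables, `z` is a new
  variable, and `d > 0` is not divisible by `p ^ 2`. -/
  | add (s s' : ℕ) (hs : s ≠ 0) (A C : IntermediateField k K) (P Q : Set K) (F f : K)
      (hF : IsExpression p s A P F) (hf : IsExpression p s' C Q f) (hAC : AreIndependent A C)
      (z : K) (hz : Transcendental (A ⊔ C : IntermediateField k K) z) (d : ℕ) (hd0 : d ≠ 0)
      (hd : ¬ p ^ 2 ∣ d) :
      IsExpression p (max s s') ((A ⊔ C) ⊔ IntermediateField.adjoin k {z})
        (insert z (insert (F + f * z ^ d) (P ∪ Q))) (F + f * z ^ d)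

/-- A power `w ^ m`, `m ≠ 0`, is a product of a constant and of (positive or negative) powers of
elements of `P`. -/
def IsMonomial (k : Type) {K : Type} [Field k] [Field K] [Algebra k K] (P : Set K) (w : K) :
    Prop :=
  ∃ m : ℕ, m ≠ 0 ∧ ∃ (c : k) (l : ℕ) (a : Fin l → K) (e : Fin l → ℤ),
    (∀ t, a t ∈ P) ∧ w ^ m = algebraMap k K c * ∏ t, a t ^ e t

end defs

/-- The homomorphism `ξ` is a homogeneous generic point of the projective variety `Proj S` over
`k`, where `S = ⨁ 𝒜 t`, and `K` is the function field: `ξ` is injective on the homogeneous parts of
`S`, and the elements of `K` are the quotients of the values at `ξ` of homogeneous elements of `S`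
of the same degree. -/
structure IsGenericPoint {k S K : Type} [Field k] [CommRing S] [Algebra k S]
    (𝒜 : ℕ → Submodule k S) [Field K] [Algebra k K] (ξ : S →ₐ[k] K) : Prop where
  injective : ∀ n, ∀ s ∈ 𝒜 n, ξ s = 0 → s = 0
  fractions : ∀ z : K, ∃ n, ∃ s ∈ 𝒜 n, ∃ t ∈ 𝒜 n, ξ t ≠ 0 ∧ z = ξ s / ξ t

section proofs

open Pool.Agent.KS6_21.P2 Pool.Agent.KS6_21.P3 Pool.Agent.N762.FP

variable (p : ℕ) [Fact p.Prime] {k : Type} [Field k] [PerfectField k] [CharP k p] {K : Type}
  [Field K] [Algebra k K]

lemma mak_of_sum {A : IntermediateField k K} {P : Set K} {a : K} (h : IsSum A P a) :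
    MaK p A P a := by
  induction h with
  | constant a ha => exact mak_const p ha
  | surface E h2 hE a ha => exact mak_surf p E h2 hE ha
  | add A B P Q a b hA hB hAB ihA ihB => exact mak_add p ihA ihB hAB

lemma dik_of_sum {A : IntermediateField k K} {P : Set K} {a : K} (h : IsSum A P a) :
    DiK p A P a := by
  induction h with
  | constant a ha => exact dik_const p ha
  | surface E h2 hE a ha => exact dik_surf p E h2 hE ha
  | add A B P Q a b hA hB hAB ihA ihB => exact dik_add p ihA ihB hAB

lemma mdk_of_expression {s : ℕ} {A : IntermediateField k K} {P : Set K} {F : K}
    (h : IsExpression p s A P F) : CoK p A P F ∧ (s ≠ 0 → F ∈ P ∧ MdK p A P F) := by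
  have key : ∀ {A : IntermediateField k K} {P : Set K} {F : K} (h1 : MdK p A P F) (h2 : F ∈ P)
      (s : ℕ), CoK p A P F ∧ (s ≠ 0 → F ∈ P ∧ MdK p A P F) := fun h1 h2 s =>
    ⟨cok_of_mdk p h1 h2, fun _ => ⟨h2, h1⟩⟩
  induction h with
  | constant c hc hc0 => exact ⟨cok_const p hc hc0, fun h => absurd rfl h⟩
  | surface E h2 hE f hf hf0 => exact ⟨cok_surf p E h2 hE hf hf0, fun h => absurd rfl h⟩
  | surface' E h2 hE f hf hfp => exact key (mdk_surf p E h2 hE hf hfp) hf _
  | coordinate y hy => exact key (mdk_var p hy) (Set.mem_singleton y) _
  | frobenius A P a h ha w hw =>
    exact key (dik_frob p (dik_of_sum p h) ha w hw) (Set.mem_insert _ _) _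
  | artinSchreier A P a h w hw =>
    exact key (mak_pencil' p (mak_of_sum p h) w hw) (Set.mem_insert _ _) _
  | mul s s' hs A C P Q F f hF hf hAC e e' he ihF ihf =>
    exact key (mdk_mul p (ihF.2 hs).2 (ihF.2 hs).1 ihf.1 hAC e e' he) (Set.mem_insert _ _) _
  | add s s' hs A C P Q F f hF hf hAC z hz d hd0 hd ihF ihf =>
    exact key (mdk_add p (ihF.2 hs).2 (ihF.2 hs).1 ihf.1 hAC z hz d hd0 hd)
      (Or.inr (Or.inl rfl)) _

/-- The functions in the theorem are locally monomials on smooth projective models. -/
theorem mod_of_expression {s s' : ℕ} (hs : s ≠ 0) {A C : IntermediateField k K} {P Q : Set K}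
    {F f : K} (hF : IsExpression p s A P F) (hf : IsExpression p s' C Q f)
    (hAC : AreIndependent A C) (z : K) (d : ℕ) (hd : ¬ p ^ 2 ∣ d) (hz : F + f * z ^ d = 0)
    (hK : (A ⊔ C) ⊔ IntermediateField.adjoin k {z} = ⊤) :
    Mod k {w | IsMonomial k (insert z (P ∪ Q)) w} := by
  have h1 := (mdk_of_expression p hF).2 hs
  have h2 := mdk_end p h1.2 h1.1 (mdk_of_expression p hf).1 hAC z d hd hz hK
  exact (Pool.Agent.KS6_21.P1.md_sat (Pool.Agent.KS6_21.P1.md_of_mod p h2
    (fun e : Empty => (e.elim : K))) (fun w hw _ => hw)).mod

end proofs

open Pool.Agent.N762.FP in
/-- **Equations with Artin-Schreier polynomials.** Let `k` be a perfect field of characteristic `p`,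
and let `K` be the function field of a hypersurface `F + f * z ^ d = 0`: here `F` and `f` are
expressions in independent variables (`IsExpression`), `F` is not just a coefficient (`s ≠ 0`), an
Artin-Schreier polynomial occurs in `F` or in `f` (`max s s' = 2`), `d` is not divisible by `p ^ 2`,
and `K` is generated by the variables of `F` and `f` and by a solution `z` of the equation. Let
`X = Proj S` be a projective variety over `k` with function field `K`, where `S` is a graded domain
generated over `k` by its finite dimensional part `𝒜 1` of degree one. Let `b 1, ..., b l` be
elements of `𝒜 1` without common zeros on `X` (all forms of some degree `m + 1` are in the ideal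
generated by them) whose values `ξ (b i)` at the homogeneous generic point of `X` are roots of
monomials in `z` and in the functions which occur in `F` and `f`. Then each nonempty open subscheme
`U` of `X` has a resolution of singularities. -/
theorem result (p : ℕ) [Fact p.Prime] (k : Type) [Field k] [PerfectField k] [CharP k p]
    (K : Type) [Field K] [Algebra k K] (s s' : ℕ) (hs : s ≠ 0) (hs' : max s s' = 2)
    (A C : IntermediateField k K) (P Q : Set K) (F f : K) (hF : IsExpression p s A P F)
    (hf : IsExpression p s' C Q f) (hAC : AreIndependent A C) (z : K) (d : ℕ) (hd : ¬ p ^ 2 ∣ d)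
    (hz : F + f * z ^ d = 0) (hK : (A ⊔ C) ⊔ IntermediateField.adjoin k {z} = ⊤)
    (S : Type) [CommRing S] [IsDomain S] [Algebra k S] (𝒜 : ℕ → Submodule k S) [GradedAlgebra 𝒜]
    (hS : Algebra.adjoin k (𝒜 1 : Set S) = ⊤) (hS1 : 𝒜 1 ≠ ⊥) (hfg : (𝒜 1).FG)
    (ξ : S →ₐ[k] K) (hξ : IsGenericPoint 𝒜 ξ)
    (l : ℕ) (b : Fin l → S) (hb : ∀ i, b i ∈ 𝒜 1)
    (hb' : ∃ m : ℕ, ∀ s ∈ 𝒜 (m + 1), s ∈ Ideal.span (Set.range b))
    (hbP : ∀ i, IsMonomial k (insert z (P ∪ Q)) (ξ (b i)))
    (U : (Proj 𝒜).Opens) (hU : (U : Set (Proj 𝒜)).Nonempty) :
    IsResolvableVariety (k := k) (X := U.toScheme)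
      (U.ι ≫ Proj.toSpecZero 𝒜 ≫ Spec.map (CommRingCat.ofHom (algebraMap k (𝒜 0)))) := by
  classical
  obtain ⟨m, hm⟩ := hb'
  obtain ⟨T, I, hT, hI, M, hFr, hM⟩ := (mod_of_expression p hs hF hf hAC z d hd hz hK)
    {i : Fin l // ξ (b i) ≠ 0} (fun i => ξ (b i.1)) (fun i => hbP i.1) (fun i => i.2)
  exact Pool.Agent.N762.FP.isResolvable_of_forms 𝒜 hS hfg ξ hξ.injective hξ.fractions b hb hm M hFr
    (fun i hi => hM ⟨i, hi⟩) hS1 U hU

end Pool.Agent.Results.MP_b525bf_ag.ArtinSchreierFormulas
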