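import Pool.Agent.KS6_21.P2.Tow

/-!
MP_b525bf_ag: resolution of singularities, in all dimensions and in all characteristics `p > 0`, of
the diagonal hypersurfaces with arbitrary coefficients

  `f 0 * z 0 ^ d 0 + f 1 * z 1 ^ d 1 + ... + f n * z n ^ d n = 0`

over a perfect field `k`, where the coefficients `f i = f i (x i, y i)` are arbitrary nonzero
polynomials (or rational functions, or functions on surfaces) in separate pairs of variables, and
the exponents `d 1, ..., d n` are not divisible by `p ^ 2` (`d 0` is arbitrary, also `d 0 = 0`).

These are families, over a product of surfaces, of the diagonal varieties in the variables `z i`: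
for example families of Fermat varieties. If all `d i` are divisible by `p`, no fibre is smooth: for
`p = 2` and `d i = 2` they are the wild conic bundles, and bundles of quadrics in all dimensions,
`∑ i, f i (x i, y i) * z i ^ 2 = 0`, and for all `p` the twisted forms
`∑ i, f i (x i, y i) * z i ^ p = 0` of a multiple linear space. No condition of nondegeneracy is
imposed on the polynomials `f i`.

More generally the coefficients can be arbitrary elements `f i ≠ 0` of the function fields `E i` of
smooth projective surfaces over `k` (or elements of `k`, for `i ≠ 0`), where the fields `E i` and the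
variables `z i`, `i < n`, are independent in the function field `K` of the hypersurface
(`IsDiagonal`), and the theorem is about all projective varieties with function field `K` whose
homogeneous coordinates are roots of products of elements of the `E i`, of the `z i`, and of the
partial sums of the equation (`IsMonomial`), and about all their open subsets; in particular about
the hypersurface above, and about its closure in the projective space.

The proof: let `F = f 0 * z 0 ^ d 0 + ... + f (i-1) * z (i-1) ^ d (i-1)` be a partial sum, and let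
`f = f i`. The induction hypothesis is that there are smooth projective models `V`, of the field `N`
generated by all `E j`, `z j` with `j < i`, on which the zeros and poles of `F`, and of finitely many
other functions of the `E j`, and the `z j`, and the preceding partial sums, are in a simple normal
crossings divisor, and on which `F` has Giraud's normal form `F = a ^ p + x ^ n * h`, with a monomial
`x ^ n` whose exponents do not depend on the chart, such that the logarithmic differential of
`x ^ n * h`, divided by `x ^ n`, has no zeros. The product with a surface has the same property for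
`F` and `f` jointly: the two differentials are linearly independent at all points. The main step is
the following (`frob_sum`): for a new variable `t` the function `G = F + f * t ^ p` again has this
property. In a suitable toroidal blowup of the product of `V` and of the projective line the function
`G` has a normal form `G = a ^ p + x ^ n * h` with `a = a F + t * a f`. The charts can be chosen
such that either `a F` is zero, or `a F ^ p` is `F` times a unit, and the same for `a f` and `f`; it
follows that `a = x ^ μ * y` where, if `x ^ n` does not divide `x ^ (p * μ)`, `y` is a unit, or the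
zeros of `y` are smooth and transversal to the boundary, since the derivative of `y` along the
direction of `t` has no zeros on `y = 0`; this direction does not change the differentials. Now a
sequence of blowups of centres of codimension two in `y = 0` and the boundary (a theorem of the
library) makes the closure of the zeros of `G` smooth and transversal to the boundary, so that it
can be added to the boundary. The exponents `d i` are obtained by coverings which are tamely ramified
along the boundary, and the last `z n` by the extraction of a `p`-th root of `F / f`.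

helper21 (the Frobenius sum and the diagonal equations); built on the library of the starting files:
helper558 and the helpers named there (models, Giraud's theorem, products), helpers 188, 90, 971
(relative blowups), 153, 177 (joint normal forms), 214 (toroidal modifications), 498, 762, 98 (pairs
with models, projective varieties).
-/

set_option autoImplicit false

open AlgebraicGeometry CategoryTheory Pool.Agent.W558 Pool.Agent.N98

namespace Pool.Agent.Results.MP_b525bf_ag.DiagonalHypersurfaces

/-- The subfield of `K` generated over `k` by the `E j` and the `z j` with `j < i`. -/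
def before {k K : Type} [Field k] [Field K] [Algebra k K] (E : ℕ → IntermediateField k K)
    (z : ℕ → K) : ℕ → IntermediateField k K
  | 0 => ⊥
  | i + 1 => (before E z i ⊔ E i) ⊔ IntermediateField.adjoin k {z i}

/-- `K` is the function field of the diagonal hypersurface
`f 0 * z 0 ^ d 0 + ... + f n * z n ^ d n = 0` with coefficients `f i ≠ 0` in `E i`. (Only the
terms with `i ≤ n` of the sequences are used.)

* Each `E i` is the function field of a smooth projective surface, or `E i = k` and `i ≠ 0`.
* The exponents `d i`, `i ≠ 0`, are not divisible by `p ^ 2`.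
* `z 0` is transcendental over `E 0` and `d 0` is prime to `p` or `f 0` is not a `p`-th power in
  `E 0`; or `z 0 = 1` and `f 0` is not a `p`-th power in `E 0`.
* The fields `E i` and the `z i`, `i < n`, are independent: `before i ⊗ E i → K` is injective for
  `1 ≤ i ≤ n`, and `z i` is transcendental over the subfield generated by `before i` and `E i` for
  `1 ≤ i < n`.
* `K` is generated by the `E i` and the `z i`.

For example, let `f i (x i, y i)` be nonzero rational functions, where `x i`, `y i` (`i ≤ n`) and
`z i` (`i < n`) are independent variables, and let `K` be generated by these variables and by a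
solution `z n` of the equation. -/
structure IsDiagonal {k K : Type} [Field k] [Field K] [Algebra k K] (p n : ℕ)
    (E : ℕ → IntermediateField k K) (f z : ℕ → K) (d : ℕ → ℕ) : Prop where
  coefficient : ∀ i ≤ n, f i ∈ E i ∧ f i ≠ 0
  surface : ∀ i ≤ n, (Algebra.trdeg k (E i) = 2 ∧ HasModel k (E i)) ∨ (i ≠ 0 ∧ E i = ⊥)
  exponent : ∀ i ≤ n, i ≠ 0 → ¬ p ^ 2 ∣ d i
  first : ((∀ b ∈ E 0, b ^ p ≠ f 0) ∧ z 0 = 1) ∨
    (Transcendental (E 0) (z 0) ∧ ((∀ b ∈ E 0, b ^ p ≠ f 0) ∨ ¬ p ∣ d 0))
  disjoint : ∀ i ≤ n, i ≠ 0 → Function.Injective
    (Algebra.TensorProduct.productMap (before E z i).val (E i).val)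
  transcendental : ∀ i < n, i ≠ 0 →
    Transcendental (before E z i ⊔ E i : IntermediateField k K) (z i)
  equation : ∑ i ∈ Finset.range (n + 1), f i * z i ^ d i = 0
  generate : before E z (n + 1) = ⊤

/-- A power `w ^ m`, `m ≠ 0`, is a product of (positive or negative) powers of elements of the
fields `E i`, of the `z i`, and of partial sums `f 0 * z 0 ^ d 0 + ... + f i * z i ^ d i`, with
`i ≤ n`. -/
def IsMonomial {k K : Type} [Field k] [Field K] [Algebra k K] (n : ℕ)
    (E : ℕ → IntermediateField k K) (f z : ℕ → K) (d : ℕ → ℕ) (w : K) : Prop :=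
  ∃ m : ℕ, m ≠ 0 ∧ ∃ (l : ℕ) (a : Fin l → K) (e : Fin l → ℤ),
    (∀ t, ∃ i ≤ n, a t ∈ E i ∨ a t = z i ∨ a t = ∑ j ∈ Finset.range (i + 1), f j * z j ^ d j) ∧
    w ^ m = ∏ t, a t ^ e t

/-- The homomorphism `ξ` is a homogeneous generic point of the projective variety `Proj S` over
`k`, where `S = ⨁ 𝒜 t`, and `K` is the function field: `ξ` is injective on the homogeneous parts of
`S`, and the elements of `K` are the quotients of the values at `ξ` of homogeneous elements of `S`
of the same degree. -/
structure IsGenericPoint {k S K : Type} [Field k] [CommRing S] [Algebra k S]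
    (𝒜 : ℕ → Submodule k S) [Field K] [Algebra k K] (ξ : S →ₐ[k] K) : Prop where
  injective : ∀ n, ∀ s ∈ 𝒜 n, ξ s = 0 → s = 0
  fractions : ∀ z : K, ∃ n, ∃ s ∈ 𝒜 n, ∃ t ∈ 𝒜 n, ξ t ≠ 0 ∧ z = ξ s / ξ t

open Pool.Agent.KS6_21.P1 Pool.Agent.KS6_21.P2 Pool.Agent.N762.FP in
/-- The functions in the theorem are locally monomials on smooth projective models. -/
theorem mod_of_diagonal (p : ℕ) [Fact p.Prime] {k : Type} [Field k] [PerfectField k]
    [CharP k p] {K : Type} [Field K] [Algebra k K] (n : ℕ) (E : ℕ → IntermediateField k K)
    (f z : ℕ → K) (d : ℕ → ℕ) (h : IsDiagonal p n E f z d) :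
    Mod k {w | IsMonomial n E f z d w} := by
  classical
  have hp : p.Prime := Fact.out
  let F : ℕ → K := fun i => ∑ j ∈ Finset.range i, f j * z j ^ d j
  let P : ℕ → Set K := fun i => {w | ∃ j < i, w ∈ E j ∨ w = z j ∨ w = F (j + 1)}
  have hE0 : Algebra.trdeg k (E 0) = 2 ∧ HasModel k (E 0) := by
    rcases h.surface 0 (Nat.zero_le _) with h1 | ⟨h1, -⟩
    · exact h1
    · exact absurd rfl h1
  have hcoef : ∀ i ≤ n, i ≠ 0 → IsCoef (E i) := fun i hi _ =>
    (h.surface i hi).imp id fun h1 => h1.2
  have hd0 : ∀ i ≤ n, i ≠ 0 → d i ≠ 0 := by
    intro i hi hi0 h1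
    exact h.exponent i hi hi0 (by rw [h1]; exact dvd_zero _)
  have hPs : ∀ i, P (i + 1) = insert (z i) (insert (F (i + 1)) (P i ∪ E i)) := by
    intro i
    ext w
    constructor
    · rintro ⟨j, hj, hw⟩
      rcases Nat.lt_succ_iff_lt_or_eq.1 hj with hj | rfl
      · exact Or.inr (Or.inr (Or.inl ⟨j, hj, hw⟩))
      · rcases hw with hw | hw | hw
        · exact Or.inr (Or.inr (Or.inr hw))
        · exact Or.inl hw
        · exact Or.inr (Or.inl hw)
    · rintro (hw | hw | ⟨j, hj, hw⟩ | hw)
      · exact ⟨i, Nat.lt_succ_self i, Or.inr (Or.inl hw)⟩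
      · exact ⟨i, Nat.lt_succ_self i, Or.inr (Or.inr hw)⟩
      · exact ⟨j, hj.trans (Nat.lt_succ_self i), hw⟩
      · exact ⟨i, Nat.lt_succ_self i, Or.inl hw⟩
  have hFs : ∀ i, F (i + 1) = F i + f i * z i ^ d i := fun i => Finset.sum_range_succ _ _
  have hFP : ∀ i, F (i + 1) ∈ P (i + 1) := fun i =>
    ⟨i, Nat.lt_succ_self i, Or.inr (Or.inr rfl)⟩
  have h1 : MdK p (before E z 1) (P 1) (F 1) := by
    have h2 := mdk_base p (E 0) hE0.1 hE0.2 (h.coefficient 0 (Nat.zero_le _)).1
      (h.coefficient 0 (Nat.zero_le _)).2 (z 0) (d 0) h.first
    have e1 : before E z 1 = E 0 ⊔ IntermediateField.adjoin k {z 0} := by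
      change (⊥ ⊔ E 0) ⊔ IntermediateField.adjoin k {z 0} = _
      rw [bot_sup_eq]
    have e2 : F 1 = f 0 * z 0 ^ d 0 := by
      rw [hFs]
      simp [F]
    have e3 : P 1 = insert (z 0) (insert (f 0 * z 0 ^ d 0) (E 0 : Set K)) := by
      rw [hPs, e2]
      have e4 : P 0 = ∅ := by
        ext w
        simp [P]
      rw [e4, Set.empty_union]
    rw [e1, e2, e3]
    exact h2
  have hn : n ≠ 0 := by
    rintro rfl
    have h2 := h.equation
    simp only [zero_add, Finset.sum_range_one] at h2
    have h3 := (h.coefficient 0 le_rfl).2
    rcases h.first with ⟨-, h4⟩ | ⟨h4, -⟩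
    · rw [h4, one_pow, mul_one] at h2
      exact h3 h2
    · have h5 : z 0 ≠ 0 := by
        intro h6
        rw [h6] at h4
        exact h4 isAlgebraic_zero
      exact mul_ne_zero h3 (pow_ne_zero _ h5) h2
  have key : ∀ i, i < n → MdK p (before E z (i + 1)) (P (i + 1)) (F (i + 1)) := by
    intro i
    induction i with
    | zero => exact fun _ => h1
    | succ i ih =>
      intro hi
      have h2 := ih (Nat.lt_of_succ_lt hi)
      have h3 := mdk_step p h2 (hFP i) (hcoef (i + 1) hi.le (Nat.succ_ne_zero i))
        (h.disjoint (i + 1) hi.le (Nat.succ_ne_zero i)) (h.coefficient (i + 1) hi.le).1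
        (h.coefficient (i + 1) hi.le).2 (z (i + 1))
        (h.transcendental (i + 1) hi (Nat.succ_ne_zero i)) (d (i + 1))
        (hd0 (i + 1) hi.le (Nat.succ_ne_zero i)) (h.exponent (i + 1) hi.le (Nat.succ_ne_zero i))
      rw [← hFs, ← hPs] at h3
      exact h3
  obtain ⟨m, rfl⟩ := Nat.exists_eq_succ_of_ne_zero hn
  have h2 := key m (Nat.lt_succ_self m)
  have h3 := mdk_last p h2 (hFP m) (hcoef (m + 1) le_rfl hn) (h.disjoint (m + 1) le_rfl hn)
    (h.coefficient (m + 1) le_rfl).1 (h.coefficient (m + 1) le_rfl).2 (z (m + 1)) (d (m + 1))
    (h.exponent (m + 1) le_rfl hn) (by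
      rw [← hFs]
      exact h.equation) h.generate
  have h4 : Md p k (insert (z (m + 1)) (P (m + 1) ∪ E (m + 1))) (fun e : Empty => (e.elim : K)) :=
    md_of_mod p h3 _
  refine (md_sat h4 (Q := {w | IsMonomial (m + 1) E f z d w}) ?_).mod
  rintro w ⟨q, hq, l, a, e, ha, hw⟩ hw0
  have hmem : ∀ t, a t ≠ 0 → a t ∈ insert (z (m + 1)) (P (m + 1) ∪ E (m + 1)) := by
    intro t ht0
    obtain ⟨i, hi, hi'⟩ := ha t
    rcases Nat.le_succ_iff.1 hi with hi2 | rfl
    · exact Or.inr (Or.inl ⟨i, Nat.lt_succ_of_le hi2, hi'⟩)
    · rcases hi' with h5 | h5 | h5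
      · exact Or.inr (Or.inr h5)
      · exact Or.inl h5
      · exact absurd (h5.trans h.equation) ht0
  refine ⟨q, hq, 1, l, fun t => if a t = 0 then 1 else a t, e, ?_, ?_⟩
  · intro t
    by_cases ht : a t = 0
    · simp only [if_pos ht]
      exact Or.inr (Or.inr (one_mem _))
    · simp only [if_neg ht]
      exact hmem t ht
  · rw [map_one, one_mul, hw]
    refine Finset.prod_congr rfl fun t _ => ?_
    by_cases ht : a t = 0
    · have h5 : e t = 0 := by
        by_contra h6
        apply hw0
        refine pow_eq_zero_iff hq |>.1 ?_
        rw [hw]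
        exact Finset.prod_eq_zero (Finset.mem_univ t) (by rw [ht, zero_zpow _ h6])
      simp only [h5, zpow_zero]
    · simp only [if_neg ht]

open Pool.Agent.N762.FP in
/-- **Diagonal hypersurfaces.** Let `k` be a perfect field of characteristic `p`, and let `K` be the
function field of a diagonal hypersurface `f 0 * z 0 ^ d 0 + ... + f n * z n ^ d n = 0` whose
coefficients `f i ≠ 0` are functions on independent surfaces (`IsDiagonal`). Let `X = Proj S` be a
projective variety over `k` with function field `K`, where `S` is a graded domain generated over `k`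
by its finite dimensional part `𝒜 1` of degree one. Let `b 1, ..., b l` be elements of `𝒜 1` without
common zeros on `X` (all forms of some degree `m + 1` are in the ideal generated by them) whose
values `ξ (b i)` at the homogeneous generic point of `X` are monomials in functions of the surfaces,
in the `z i` and in the partial sums of the equation, or roots of such monomials. Then each nonempty
open subscheme `U` of `X` has a resolution of singularities. -/
theorem result (p : ℕ) [Fact p.Prime] (k : Type) [Field k] [PerfectField k] [CharP k p]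
    (K : Type) [Field K] [Algebra k K] (n : ℕ) (E : ℕ → IntermediateField k K) (f z : ℕ → K)
    (d : ℕ → ℕ) (h : IsDiagonal p n E f z d)
    (S : Type) [CommRing S] [IsDomain S] [Algebra k S] (𝒜 : ℕ → Submodule k S) [GradedAlgebra 𝒜]
    (hS : Algebra.adjoin k (𝒜 1 : Set S) = ⊤) (hS1 : 𝒜 1 ≠ ⊥) (hfg : (𝒜 1).FG)
    (ξ : S →ₐ[k] K) (hξ : IsGenericPoint 𝒜 ξ)
    (l : ℕ) (b : Fin l → S) (hb : ∀ i, b i ∈ 𝒜 1)
    (hb' : ∃ m : ℕ, ∀ s ∈ 𝒜 (m + 1), s ∈ Ideal.span (Set.range b))
    (hbP : ∀ i, IsMonomial n E f z d (ξ (b i)))
    (U : (Proj 𝒜).Opens) (hU : (U : Set (Proj 𝒜)).Nonempty) :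
    IsResolvableVariety (k := k) (X := U.toScheme)
      (U.ι ≫ Proj.toSpecZero 𝒜 ≫ Spec.map (CommRingCat.ofHom (algebraMap k (𝒜 0)))) := by
  classical
  obtain ⟨m, hm⟩ := hb'
  obtain ⟨T, I, hT, hI, M, hFr, hM⟩ := (mod_of_diagonal p n E f z d h)
    {i : Fin l // ξ (b i) ≠ 0} (fun i => ξ (b i.1)) (fun i => hbP i.1) (fun i => i.2)
  exact Pool.Agent.N762.FP.isResolvable_of_forms 𝒜 hS hfg ξ hξ.injective hξ.fractions b hb hm M hFr
    (fun i hi => hM ⟨i, hi⟩) hS1 U hU

end Pool.Agent.Results.MP_b525bf_ag.DiagonalHypersurfaces
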