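import Pool.Agent.KS6_21.P1.Ops3

/-!
MP_b525bf_ag: resolution of singularities, in all dimensions and in all characteristics `p > 0`, of
projective varieties over a perfect field `k`, and of their open subsets, whose function fields are
obtained from function fields of surfaces by finitely many operations in which arbitrary functions
`f i` of surfaces are added to `p`-th powers of new variables, and the results are multiplied with
each other and used again. The main example are the hypersurfaces, in spaces of any dimension,

  `w ^ a = ∏ i, (z i ^ p + f i 1 (x i 1, y i 1) + ... + f i m (x i m, y i m)) ^ e i`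

where the `f i j` are arbitrary polynomials in two variables (or rational functions, or functions on
surfaces) and `a` is prime to `p` or `a = p`: the cyclic coverings of degree `a` which are branched
along several wild hypersurfaces `z i ^ p + ∑ j, f i j (x i j, y i j) = 0`. (If there is only one
factor then these varieties are purely inseparable coverings, and they have been known:
SchonSurfaceInseparable in the library.)

The theorem is about triples `(K, P, (f 1, ..., f n))` of a field `K`, a set `P` of elements of `K`,
and finitely many elements `f j` of `K`, which are obtained from the triples `(E, E, f)`, where `E`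
is the function field of a surface and `f` is any element of `E` which is not a `p`-th power, by the
operations of `IsTower`, in any order. It says that a projective variety `X` with function field `K`
and its open subsets have resolutions if `X` has a finite morphism to a projective space whose
homogeneous coordinates are in `P` (for example, if the homogeneous coordinates of `X` are in `P`).

The new operation is `pencil`: the function `z ^ p - f j`, where `z` is a new variable, can be added
to `P`. The fibres of `z` over the points of the base are the lines of a wild pencil: the zeros of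
`z ^ p - f j` are a purely inseparable covering of the base, on which the resolution of
singularities is already a difficult theorem (PurelyInseparableCovers of the library). The new
theorem contains an embedded resolution of this hypersurface. The functions `f j` are not in `P`, and
they are arbitrary functions of surfaces, or sums of them and of `p`-th powers, or products; no
condition of nondegeneracy is imposed.

Examples:

* The coverings above: the fields `k (x i j, y i j)` with the functions `f i j` (`surface`,
`product`; functions `f i j` which are `p`-th powers are combined with `z i ^ p`), the functions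
`- ∑ j, f i j` (`sum`), the functions `F i = z i ^ p + ∑ j, f i j` (`pencil` and `sum`), the product
`∏ i, F i ^ e i` (`saturation`) and its root `w` (`radical`, or `rootProd` if `a = p`). The set `P`
contains all functions of `(x i j, y i j)` and the `F i`, and the `z i` and `w` are integral over the
ring generated by the `x i j`, `y i j` and `F i`. The same operations give the systems of
equations `w l ^ (a l) = ∏ i, F i ^ e l i`, and several `F i` can be constructed over the same
surfaces, with the same functions `f i j`.

* Since `z ^ p - f 0` is in `P`, and is also one of the functions with which one can continue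
(`sum`, with `b = z`), formulas can be composed: let a read-once formula `F` be an arbitrary
function of two new variables, or a product `∏ i, F i ^ e i` with integral exponents `e i` not all
divisible by `p`, or a sum `z ^ p + ∑ i, c i * F i` with a new variable `z` and constants `c i ≠ 0`,
where the formulas `F i` have no variables in common. Then the varieties `w ^ a = F`, for `a` prime
to `p`, `w ^ p = F`, `w ^ p = ∑ i, c i * F i`, and for instance
`w ^ a = z ^ p + g (x, y) * (u ^ p + f (s, t) + h (v, r)) ^ e`, `p ∤ e`, have resolutions.

* Systems of such equations, by the operations `system`, `product` and `radical`: the class contains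
the class of the theorem SystemTowers (MP_19ffc6_ag) of the library, with the coverings.

The proof: all operations preserve the following property: on some smooth projective model `V` of
`K` the given finitely many elements of `P` have their zeros and poles in a divisor with simple
normal crossings, and the functions `f j` have locally the form `f j = a j ^ p + x ^ (n j) * h j`,
where `x ^ (n j)` are monomials in the equations of the divisor, with exponents which do not depend
on the chart, and the logarithmic differentials of the `x ^ (n j) * h j` are linearly independent at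
all points (`GM`). For `pencil` one takes the projective line bundle over `V` with the coordinates
`(Z - a 0) / x ^ μ` and a sequence of blowups of centres of codimension two
after which the strict transform `D` of the closure of the zeros of `Z ^ p - f 0` is smooth and
transversal to the boundary (the theorem of the library for purely inseparable coverings); the new
step is that `D` can be added to the boundary: the forms `d (x ^ n j * h j)`, `j ≠ 0`, remain
independent together with the logarithmic differential of the equation of `D`, and the function
`f 0` gets a new normal form with the equation of `D` as a factor of the monomial. `sum`, `prod`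
and the roots use toroidal blowups and the theorems of the library on joint normal forms.

helper21 (the operations with leftover functions, pencils, assembly); built on the library of the
starting files: helper558 and the helpers named there (models, Giraud's theorem, products, the line
bundle), helpers 188, 153, 177 (joint normal forms), 214 (relative schön systems), 762, 98
(pairs with models, projective varieties), 102 (systems with Frobenius levels).
-/

set_option autoImplicit false

open AlgebraicGeometry CategoryTheory Pool.Agent.W558 Pool.Agent.N98 Pool.Agent.TH214.SD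
  Pool.Agent.N102.FL

namespace Pool.Agent.Results.MP_b525bf_ag.FrobeniusPencils

/-- The smallest class of triples `(K, P, (f 1, ..., f n))`, where `K` is an extension of the field
`k`, `P` is a set of elements of `K` (the functions which can be used as coefficients and as
coordinates) and `f 1, ..., f n` are elements of `K` (the functions which can be used in equations
with `p`-th powers), with the following properties. -/
inductive IsTower (p : ℕ) (k : Type) [Field k] :
    (K : Type) → [Field K] → [Algebra k K] → Set K → (n : ℕ) → (Fin n → K) → Prop
  /-- **Surfaces.** If `E` is the function field of a smooth projective surface and `f` is any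
  function of `E` which is not a `p`-th power, then `(E, E, f)` is in the class. -/
  | surface (E : Type) [Field E] [Algebra k E] (h2 : Algebra.trdeg k E = 2)
      (hE : HasModel k E) (f : Fin 1 → E) (hf : ∀ b : E, b ^ p ≠ f 0) :
      IsTower p k E Set.univ 1 f
  /-- If each finite family of nonzero elements of `P` has its zeros and poles in a simple normal
  crossings divisor on some smooth projective variety with function field `E`, then `(E, P, ∅)` is
  in the class. -/
  | models (E : Type) [Field E] [Algebra k E] (P : Set E)
      (hE : ∀ (m : ℕ) (g : Fin m → E), (∀ b, g b ∈ P) → (∀ b, g b ≠ 0) →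
        ∃ (N L : ℕ) (H : Fin (N + 1) → E) (x : Fin (N + 1) → Fin L → E)
          (Γ : Fin m → Fin L → ℤ), IsLogModel (k := k) g H x Γ) (f : Fin 0 → E) :
      IsTower p k E P 0 f
  /-- **Pencils.** Let `(L, P, (f 0, ..., f n))` be in the class and let `K = L (Z)`, with `Z`
  transcendental over `L`. Then the function `Z ^ p - f 0` can be added to `P`. -/
  | pencil (L K : Type) [Field L] [Field K] [Algebra k L] [Algebra k K] [Algebra L K]
      [IsScalarTower k L K] (P : Set L) (n : ℕ) (f : Fin (n + 1) → L)
      (h : IsTower p k L P (n + 1) f) (Z : K) (hZ : Transcendental L Z)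
      (hK : IntermediateField.adjoin L {Z} = ⊤) :
      IsTower p k K (insert (Z ^ p - algebraMap L K (f 0)) (algebraMap L K '' P)) (n + 1)
        (fun i => algebraMap L K (f i))
  /-- **Sums.** Let `(K, P, (f 1, ..., f n))` be in the class. The functions `f j` can be replaced
  by finitely many functions `b i ^ p + ∑ j, c i j * f j` with `b i` in `K` and with `c i j` in `k`,
  where `c i ≠ 0` and each `j` has `c i j ≠ 0` for at most one `i`. -/
  | sum (K : Type) [Field K] [Algebra k K] (P : Set K) (n : ℕ) (f : Fin n → K)
      (h : IsTower p k K P n f) (m : ℕ) (b : Fin m → K) (c : Fin m → Fin n → k)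
      (hc : ∀ i, c i ≠ 0) (hd : ∀ i i', i ≠ i' → ∀ j, c i j = 0 ∨ c i' j = 0) :
      IsTower p k K P m (fun i => b i ^ p + ∑ j, algebraMap k K (c i j) * f j)
  /-- **Products.** Let `(K, P, (f 1, ..., f n))` be in the class. The functions `f j` can be
  replaced by finitely many products `∏ j, f j ^ e i j` with integral exponents, where for each `i`
  some `e i j` is prime to `p`, each `j` has `e i j` prime to `p` for at most one `i`, and the
  functions `f j` with `e i j ≠ 0` are in `P` unless the product is `f j`. -/
  | prod (K : Type) [Field K] [Algebra k K] (P : Set K) (n : ℕ) (f : Fin n → K)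
      (h : IsTower p k K P n f) (m : ℕ) (e : Fin m → Fin n → ℤ)
      (he : ∀ i, ∃ j, ¬ (p : ℤ) ∣ e i j)
      (hd : ∀ i i', i ≠ i' → ∀ j, (p : ℤ) ∣ e i j ∨ (p : ℤ) ∣ e i' j)
      (hP : ∀ i j, e i j ≠ 0 → f j ∈ P ∨ e i = Pi.single j 1) :
      IsTower p k K P m (fun i => ∏ j, f j ^ e i j)
  /-- **Roots of sums.** Let `(L, P, (f 1, ..., f n, f' 1, ..., f' m))` be in the class, and let `K`
  be generated over `L` by elements `w j` such that the `w j ^ p` are linear combinations of
  `f 1, ..., f n` over `k`. Then `(K, P, (f' 1, ..., f' m))` is in the class. -/
  | rootSum (L K : Type) [Field L] [Field K] [Algebra k L] [Algebra k K] [Algebra L K]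
      [IsScalarTower k L K] (P : Set L) (n m : ℕ) (f : Fin n → L) (f' : Fin m → L)
      (h : IsTower p k L P (n + m) (Fin.append f f')) (r : ℕ) (w : Fin r → K)
      (hw : ∀ j, w j ^ p ∈ Submodule.span k (Set.range fun i => algebraMap L K (f i)))
      (hK : IntermediateField.adjoin L (Set.range w) = ⊤) :
      IsTower p k K (algebraMap L K '' P) m (fun i => algebraMap L K (f' i))
  /-- **Roots of products.** Let `(L, P, (f 1, ..., f n, f' 1, ..., f' m))` be in the class, where
  `f 1, ..., f n` are in `P`, and let `K` be generated over `L` by elements `w j` such that the
  `w j ^ p` are products of integral powers of `f 1, ..., f n`. Then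
  `(K, P ∪ {w 1, ..., w r}, (f' 1, ..., f' m))` is in the class. -/
  | rootProd (L K : Type) [Field L] [Field K] [Algebra k L] [Algebra k K] [Algebra L K]
      [IsScalarTower k L K] (P : Set L) (n m : ℕ) (f : Fin n → L) (f' : Fin m → L)
      (h : IsTower p k L P (n + m) (Fin.append f f')) (hP : ∀ i, f i ∈ P) (r : ℕ)
      (w : Fin r → K) (e : Fin r → Fin n → ℤ)
      (hw : ∀ j, w j ^ p = ∏ i, algebraMap L K (f i) ^ e j i)
      (hK : IntermediateField.adjoin L (Set.range w) = ⊤) :
      IsTower p k K (algebraMap L K '' P ∪ Set.range w) m (fun i => algebraMap L K (f' i))
  /-- **Radicals.** Let `(L, P, (f 1, ..., f n))` be in the class, and let `K` be generated over `L`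
  by elements `w j ≠ 0` such that `w j ^ d j` is in `P`, for an exponent `d j` prime to `p`. Then
  the `w j` can be added to `P`. -/
  | radical (L K : Type) [Field L] [Field K] [Algebra k L] [Algebra k K] [Algebra L K]
      [IsScalarTower k L K] (P : Set L) (n : ℕ) (f : Fin n → L) (h : IsTower p k L P n f)
      (r : ℕ) (w : Fin r → K) (d : Fin r → ℕ) (hw0 : ∀ j, w j ≠ 0) (hd : ∀ j, ¬ p ∣ d j)
      (hw : ∀ j, ∃ z ∈ P, w j ^ d j = algebraMap L K z)
      (hK : IntermediateField.adjoin L (Set.range w) = ⊤) :
      IsTower p k K (algebraMap L K '' P ∪ Set.range w) n (fun i => algebraMap L K (f i))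
  /-- **Products of varieties.** If `(K₁, P₁, f₁)` and `(K₂, P₂, f₂)` are in the class, and `K` is
  the field of fractions of the image of `K₁ ⊗ K₂`, where the homomorphism from `K₁ ⊗ K₂` to `K` is
  injective (if `k` is algebraically closed, `K` is the function field of the product of varieties
  with the function fields `K₁` and `K₂`), then `(K, P₁ ∪ P₂, (f₁, f₂))` is in the class. -/
  | product (K₁ K₂ K : Type) [Field K₁] [Field K₂] [Field K] [Algebra k K₁] [Algebra k K₂]
      [Algebra k K] (P₁ : Set K₁) (P₂ : Set K₂) (n₁ n₂ : ℕ) (f₁ : Fin n₁ → K₁)
      (f₂ : Fin n₂ → K₂) (h₁ : IsTower p k K₁ P₁ n₁ f₁) (h₂ : IsTower p k K₂ P₂ n₂ f₂)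
      (ι₁ : K₁ →ₐ[k] K) (ι₂ : K₂ →ₐ[k] K)
      (hι : Function.Injective (Algebra.TensorProduct.productMap ι₁ ι₂))
      (hK : IntermediateField.adjoin k (Set.range ι₁ ∪ Set.range ι₂) = ⊤) :
      IsTower p k K (ι₁ '' P₁ ∪ ι₂ '' P₂) (n₁ + n₂)
        (Fin.append (fun i => ι₁ (f₁ i)) (fun i => ι₂ (f₂ i)))
  /-- **Systems of equations.** Let `(L, P, (f 1, ..., f l))` be in the class, and let
  `M = L (z, x)`, where the elements `z 1, ..., z s` and `x 1, ..., x n` satisfy a schön system over
  linear relations between `1` and the powers `z t ^ (p ^ e t)`, with coefficients
  `v 1, ..., v m` in `P` (`IsLeveledSystemOver`). Let `F 1, ..., F a` be Laurent polynomials over `k`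
  in the variables of `((v, z), x)` which are strongly nondegenerate on the system. Then the `x j`,
  and the linear combinations over `k` of `1` and of the powers `z t ^ (p ^ (e t - i))`, `e t ≥ i`,
  for all `i ≥ 0`, can be added to `P`, and the functions `F t ((v, z), x)` to the functions
  `f 1, ..., f l`. -/
  | system (L M : Type) [Field L] [Field M] [Algebra k L] [Algebra k M] [Algebra L M]
      [IsScalarTower k L M] (P : Set L) (l : ℕ) (f : Fin l → L) (h : IsTower p k L P l f)
      (m s n q c a : ℕ) (v : Fin m → L) (hv : ∀ b, v b ∈ P) (e : Fin s → ℕ) (z : Fin s → M)
      (x : Fin n → M) (G : Fin q → (Fin (m + s) ⊕ Fin n → ℤ) →₀ k)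
      (hB : IsLeveledSystemOver p c v e z x G)
      (F : Fin a → (Fin (m + s) ⊕ Fin n → ℤ) →₀ k) (hF : StronglyNondegenerateOn G F) :
      IsTower p k M (algebraMap L M '' P ∪ (Set.range x ∪ {g | IsLinearForm k p e z g}))
        (l + a) (Fin.append (fun i => algebraMap L M (f i)) (fun t =>
          value (F t) (Fin.append (fun b => algebraMap L M (v b)) z) x))
  /-- **Artin-Schreier coverings of systems.** In the situation of `system`, let `K = M (w)`, where
  all `w j ^ p - w j` are integral linear combinations of the `F t ((v, z), x)`. Then `K` and the
  same set of functions, with `∅` as the set of the functions `f j`, are in the class. -/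
  | artinSchreier (L M K : Type) [Field L] [Field M] [Field K] [Algebra k L] [Algebra k M]
      [Algebra L M] [IsScalarTower k L M] [Algebra k K] [Algebra L K] [Algebra M K]
      [IsScalarTower k M K] [IsScalarTower L M K] (P : Set L) (l : ℕ) (f : Fin l → L)
      (h : IsTower p k L P l f) (m s n q c a r : ℕ)
      (v : Fin m → L) (hv : ∀ b, v b ∈ P) (e : Fin s → ℕ) (z : Fin s → M) (x : Fin n → M)
      (G : Fin q → (Fin (m + s) ⊕ Fin n → ℤ) →₀ k) (hB : IsLeveledSystemOver p c v e z x G)
      (F : Fin a → (Fin (m + s) ⊕ Fin n → ℤ) →₀ k) (hF : StronglyNondegenerateOn G F)
      (w : Fin r → K)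
      (hw : ∀ j, w j ^ p - w j ∈ AddSubgroup.closure (Set.range fun t => algebraMap M K
          (value (F t) (Fin.append (fun b => algebraMap L M (v b)) z) x)))
      (hK : IntermediateField.adjoin M (Set.range w) = ⊤) (f' : Fin 0 → K) :
      IsTower p k K (algebraMap L K '' P ∪
        algebraMap M K '' (Set.range x ∪ {g | IsLinearForm k p e z g})) 0 f'
  /-- **Products and roots.** If `(K, P, f)` is in the class, and each nonzero element of `Q` has a
  power which is a product of a constant and of (positive or negative) powers of elements of `P`,
  then `(K, Q, f)` is in the class. -/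
  | saturation (K : Type) [Field K] [Algebra k K] (P Q : Set K) (n : ℕ) (f : Fin n → K)
      (h : IsTower p k K P n f)
      (hQ : ∀ z ∈ Q, z ≠ 0 → ∃ m : ℕ, m ≠ 0 ∧ ∃ (c : k) (l : ℕ) (a : Fin l → K) (e : Fin l → ℤ),
        (∀ i, a i ∈ P) ∧ z ^ m = algebraMap k K c * ∏ i, a i ^ e i) :
      IsTower p k K Q n f

open Pool.Agent.KS6_21.P1 in
/-- The joint normal form of the functions `f j` on models for finite subsets of `P`. -/
theorem md_of_tower (p : ℕ) [Fact p.Prime] (k : Type) [Field k] [PerfectField k]
    [CharP k p] (K : Type) [Field K] [Algebra k K] (P : Set K) (n : ℕ) (f : Fin n → K)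
    (h : IsTower p k K P n f) : Md p k P f := by
  induction h with
  | surface E h2 hE f hf =>
    refine md_surf p h2 hE f fun i => ?_
    rintro ⟨b, hb⟩
    rw [Subsingleton.elim i 0] at hb
    exact hf b hb
  | models E P hE f => exact md_of_mod p (Pool.Agent.N762.FP.mod_models hE) f
  | pencil L K P n f h Z hZ hK ih =>
    have h1 := md_pencil p (ih.comp' (f' := fun o : Option (Fin n) => f (o.elim 0 Fin.succ))
      (fun o : Option (Fin n) => o.elim 0 Fin.succ) (by
        rintro (_ | a) (_ | b) hab
        · rfl
        · exact absurd hab (Fin.succ_ne_zero b).symm
        · exact absurd hab (Fin.succ_ne_zero a)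
        · exact congrArg some (Fin.succ_injective n hab)) fun o => rfl) Z hZ hK
    exact h1.comp' (fun i : Fin (n + 1) => Fin.cases none some i) (by
      intro a b hab
      induction a using Fin.cases with
      | zero =>
        induction b using Fin.cases with
        | zero => rfl
        | succ b => simp at hab
      | succ a =>
        induction b using Fin.cases with
        | zero => simp at hab
        | succ b => simpa using hab) (fun i => by
      induction i using Fin.cases with
      | zero => rfl
      | succ i => rfl)
  | sum K P n f h m b c hc hd ih =>
    exact md_add p ih b c hc hd _ fun _ i => by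
      congr 1
      exact Finset.sum_congr (by ext; simp) fun j _ => rfl
  | prod K P n f h m e he hd hP ih =>
    exact md_mul p ih e he hd (fun i j hij => (hP i j hij).imp id fun h1 l => ⟨fun h2 => by
      rw [h1, h2, Pi.single_eq_same], fun h2 => by rw [h1, Pi.single_eq_of_ne h2]⟩) _
      fun _ i => Finset.prod_congr (by ext; simp) fun j _ => rfl
  | rootSum L K P n m f f' h r w hw hK ih =>
    have h1 : Md p k P (Sum.elim f f') := ih.comp' (fun o => finSumFinEquiv o)
      finSumFinEquiv.injective fun o => by
        rcases o with i | i
        · simp
        · simp
    exact md_root_add p h1 w hw hK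
  | rootProd L K P n m f f' h hP r w e hw hK ih =>
    have h1 : Md p k P (Sum.elim f f') := ih.comp' (fun o => finSumFinEquiv o)
      finSumFinEquiv.injective fun o => by
        rcases o with i | i
        · simp
        · simp
    exact md_root_mul p h1 hP w e (fun _ j => (hw j).trans
      (Finset.prod_congr (by ext; simp) fun j _ => rfl)) hK
  | radical L K P n f h r w d hw0 hd hw hK ih => exact md_rad p ih w hw0 d hd hw hK
  | product K₁ K₂ K P₁ P₂ n₁ n₂ f₁ f₂ h₁ h₂ ι₁ ι₂ hι hK ih₁ ih₂ =>
    exact (md_prod ι₁ ι₂ hι hK ih₁ ih₂).comp' (fun o => finSumFinEquiv.symm o)
      finSumFinEquiv.symm.injective fun o => by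
        obtain ⟨o, rfl⟩ := finSumFinEquiv.surjective o
        rw [Equiv.symm_apply_apply]
        rcases o with i | i
        · simp
        · simp
  | system L M P l f h m s n q c a v hv e z x G hB F hF ih =>
    exact (md_system ih hv hB hF).comp' (fun o => finSumFinEquiv.symm o)
      finSumFinEquiv.symm.injective fun o => by
        obtain ⟨o, rfl⟩ := finSumFinEquiv.surjective o
        rw [Equiv.symm_apply_apply]
        rcases o with i | i
        · simp
        · simp
  | artinSchreier L M K P l f h m s n q c a r v hv e z x G hB F hF w hw hK f' ih =>
    exact md_of_mod p (Pool.Agent.N102.TF.mod_system ih.mod hv hB hF w (Or.inl hw) hK) f'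
  | saturation K P Q n f h hQ ih => exact md_sat ih hQ

/-- The homomorphism `ξ` is a homogeneous generic point of the projective variety `Proj S` over
`k`, where `S = ⨁ 𝒜 t`, and `K` is the function field: `ξ` is injective on the homogeneous parts of
`S`, and the elements of `K` are the quotients of the values at `ξ` of homogeneous elements of `S`
of the same degree. -/
structure IsGenericPoint {k S K : Type} [Field k] [CommRing S] [Algebra k S]
    (𝒜 : ℕ → Submodule k S) [Field K] [Algebra k K] (ξ : S →ₐ[k] K) : Prop where
  injective : ∀ n, ∀ s ∈ 𝒜 n, ξ s = 0 → s = 0
  fractions : ∀ z : K, ∃ n, ∃ s ∈ 𝒜 n, ∃ t ∈ 𝒜 n, ξ t ≠ 0 ∧ z = ξ s / ξ t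

/-- Let `k` be a perfect field of characteristic `p`, and let `(K, P, f)` be a triple of an extension
of `k`, a set of its elements and a finite family of its elements which is obtained from function
fields of surfaces by the operations of `IsTower`. Let `X = Proj S` be a projective variety over `k`
with function field `K`, where `S` is a graded domain generated over `k` by its finite dimensional
part `𝒜 1` of degree one. Let `b 1, ..., b l` be elements of `𝒜 1` without common zeros on `X` (all
forms of some degree `d + 1` are in the ideal generated by them) whose values `ξ (b i)` at the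
homogeneous generic point of `X` are in `P`. (In other words: `X` has a finite morphism to a
projective space whose homogeneous coordinates are in `P`.) Then each nonempty open subscheme `U` of
`X` has a resolution of singularities. -/
theorem result (p : ℕ) [Fact p.Prime] (k : Type) [Field k] [PerfectField k] [CharP k p]
    (K : Type) [Field K] [Algebra k K] (P : Set K) (n : ℕ) (f : Fin n → K)
    (hP : IsTower p k K P n f)
    (S : Type) [CommRing S] [IsDomain S] [Algebra k S] (𝒜 : ℕ → Submodule k S) [GradedAlgebra 𝒜]
    (hS : Algebra.adjoin k (𝒜 1 : Set S) = ⊤) (hS1 : 𝒜 1 ≠ ⊥) (hfg : (𝒜 1).FG)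
    (ξ : S →ₐ[k] K) (hξ : IsGenericPoint 𝒜 ξ)
    (l : ℕ) (b : Fin l → S) (hb : ∀ i, b i ∈ 𝒜 1)
    (hb' : ∃ d : ℕ, ∀ s ∈ 𝒜 (d + 1), s ∈ Ideal.span (Set.range b)) (hbP : ∀ i, ξ (b i) ∈ P)
    (U : (Proj 𝒜).Opens) (hU : (U : Set (Proj 𝒜)).Nonempty) :
    IsResolvableVariety (k := k) (X := U.toScheme)
      (U.ι ≫ Proj.toSpecZero 𝒜 ≫ Spec.map (CommRingCat.ofHom (algebraMap k (𝒜 0)))) := by
  classical
  obtain ⟨d, hd⟩ := hb'
  obtain ⟨T, I, hT, hI, M, hFr, hM⟩ := (md_of_tower p k K P n f hP).mod
    {i : Fin l // ξ (b i) ≠ 0} (fun i => ξ (b i.1)) (fun i => hbP i.1) (fun i => i.2)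
  exact Pool.Agent.N762.FP.isResolvable_of_forms 𝒜 hS hfg ξ hξ.injective hξ.fractions b hb hd M hFr
    (fun i hi => hM ⟨i, hi⟩) hS1 U hU

end Pool.Agent.Results.MP_b525bf_ag.FrobeniusPencils
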