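import Pool.Agent.KS6_21.Q.Final

/-!
MP_b525bf_ag: resolution of singularities, in all dimensions and in all characteristics `p ≠ 2`, of
all irreducible components of intersections of two quadrics.

Let `k` be algebraically closed of characteristic `p ≠ 2`. The theorem is about every irreducible
component `Y` of the scheme `q 0 = q 1 = 0` in `P ^ n`, for arbitrary quadratic forms `q 0` and
`q 1`, and about the open subsets of `Y`. There is no condition on the pencil (the Segre symbol can
be arbitrary, all quadrics of the pencil can be singular, with the vertices varying in the pencil),
on the singularities of `Y` (the singular locus can have any dimension, also codimension one), or on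
the dimension. In particular the theorem resolves

* all integral complete intersections of two quadrics in `P ^ n`;

* in the affine space `𝔸 ^ n`, all irreducible components of the zero sets of two polynomials of
  degree at most two: they are open subsets of components of the intersection of the two
  homogenized equations;

* the irreducible components of the hypersurfaces `f (x 1, ..., x n) = 0` in `𝔸 ^ n`, where
  `f = c * q ^ 2 + l * q + r` for a constant `c` and polynomials `l`, `q`, `r` with
  `deg l ≤ 1`, `deg q ≤ 2`, `deg r ≤ 2`: they are isomorphic to the components of
  `w - q (x) = c * w ^ 2 + l (x) * w + r (x) = 0` in `𝔸 ^ (n + 1)`. For `c = 1` these are the quartic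
  hypersurfaces which are double along a quadric at infinity (the cyclides of Darboux, in all
  dimensions), and for `c = 0` these are the cubic hypersurfaces with a reducible hyperplane
  section at infinity. Thus if `X` is a cubic hypersurface in `P ^ n` which contains a linear
  subspace `L` of dimension `n - 2`, with the equation `x 0 * A + x 1 * B = 0`, then `X ∖ H` has a
  resolution for each hyperplane `H ⊇ L`, and even `X ∖ L`, which is isomorphic to an open subset of
  `A = w * x 1`, `B = - w * x 0` in `P ^ (n + 1)`;

* the double coverings of quadrics in `P ^ n`, of any rank, branched along quadric sections.

The result is new if `Y` has dimension at least four (in dimension three or less it is contained in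
the theorem of Cossart and Piltant). The results of the starting files in this problem are about
systems of equations between products of linear forms which satisfy a condition of independence
modulo `p`; among pencils of quadrics they contain for example the diagonal ones,
`∑ i, a i * (x i) ^ 2 = ∑ i, b i * (x i) ^ 2 = 0`.

The proof. (1) The pencil `(q 0, q 1)` has a normal form (Kronecker, Weierstrass, Segre, in
characteristic `≠ 2`): `sparse_of_symm`. It is proved here in a weak form which is sufficient: there
are linear coordinates `y i`, a map `s` from the index set to itself and a rank function `r`, such
that only the products `y i * y (s i)` occur in `q 0` and `q 1`, and `s i = i` or `r i < r (s i)`: so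
the products are the edges of a forest, with loops at the roots. For a
nondegenerate pencil one uses the Jordan form of the self-adjoint operator, and for a singular pencil
the minimal solutions of `(q 0 + t * q 1) (x (t)) = 0`, which split off
(`exists_jordan`, `exists_Y`). (2) Because of `p ≠ 2` the exponents of the products
`y i * y (s i)`, `y i ≠ 0` and `y (s i) ≠ 0` on `Y`, are linearly independent modulo `p`
(`indep`). So, after an extension of degree prime to `p`, one can use these products and some of the
`y j` as coordinates, and the equations are linear equations between the products. (3) There are no
other relations than these linear equations: as `Y` is a component of the intersection of two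
quadrics, this follows from the theorem of Krull on the height of minimal primes, for the subspace
in which the vanishing coordinates are omitted, and for the space of the restrictions of `q 0` and
`q 1` to it (`card_le_trdeg`, `card_le`). (4) By the library there are smooth projective models of
the function field of `Y` on which finitely many given products of linear forms are locally
monomials, also after radical extensions of degree prime to `p`, and therefore smooth projective
models with a birational morphism to `Y`, as the linear forms `y i` are among these functions and
have no common zeros.

helper21 (the normal form, the dimension theorem, the reduction); built on the library of the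
starting files: helper558, 762, 98 (models, projective varieties), 102, 214 (linear systems),
helpers 188, 90, 971, 153, 177 (joint normal forms).
-/

set_option autoImplicit false

open AlgebraicGeometry CategoryTheory MvPolynomial Pool.Agent.W558

namespace Pool.Agent.Results.MP_b525bf_ag.TwoQuadrics

/-- **Intersections of two quadrics.** Let `k` be an algebraically closed field of characteristic
`p ≠ 2`, and let `q 0` and `q 1` be two quadratic forms in the variables `X 0, ..., X n`. Let `Y` be
an irreducible component of the subscheme `q 0 = q 1 = 0` of `P ^ n`: that is, `Y = Proj S` for the
graded domain `S = k[X 0, ..., X n] / 𝔭`, where `𝔭` is a minimal prime ideal over the ideal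
generated by `q 0` and `q 1`. (Here `S = ⨁ 𝒜 d` is given by a surjective homomorphism
`φ : k[X 0, ..., X n] → S` with `φ (X i) ∈ 𝒜 1` and with the kernel `𝔭`.) Then each nonempty open
subscheme `U` of `Y` has a resolution of singularities. -/
theorem result (p : ℕ) [Fact p.Prime] (hp : p ≠ 2) (k : Type) [Field k] [IsAlgClosed k]
    [CharP k p] (n : ℕ) (q : Fin 2 → MvPolynomial (Fin (n + 1)) k)
    (hq : ∀ l, (q l).IsHomogeneous 2)
    (S : Type) [CommRing S] [IsDomain S] [Algebra k S] (𝒜 : ℕ → Submodule k S) [GradedAlgebra 𝒜]
    (φ : MvPolynomial (Fin (n + 1)) k →ₐ[k] S) (hφ : Function.Surjective φ)
    (hφ1 : ∀ i, φ (X i) ∈ 𝒜 1)
    (h𝔭 : RingHom.ker φ ∈ (Ideal.span (Set.range q)).minimalPrimes)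
    (U : (Proj 𝒜).Opens) (hU : (U : Set (Proj 𝒜)).Nonempty) :
    IsResolvableVariety (k := k) (X := U.toScheme)
      (U.ι ≫ Proj.toSpecZero 𝒜 ≫ Spec.map (CommRingCat.ofHom (algebraMap k (𝒜 0)))) := by
  obtain ⟨x, _⟩ := hU
  exact Pool.Agent.KS6_21.Q.two_quadrics p hp q hq S 𝒜 φ hφ hφ1 h𝔭
    (Pool.Agent.KS6_21.Q.one_ne_bot 𝒜 φ hφ hφ1 x) U ⟨x, by assumption⟩

end Pool.Agent.Results.MP_b525bf_ag.TwoQuadrics
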